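import Pool.Agent.Q274.HI.Main

/-! Beilinson's Lefschetz and Hodge index conjectures for height pairings on the base changes `X_F` of a
variety `X` over a number field `K`: they pass from subfields of `F` to `F`. -/

namespace Pool.Agent.Results.MP_e2c9e7_nt.AscentFromSubfields

open NumberField Module

/-- A representation of the absolute Galois group of `K` on a vector space `A` over `ℚ` with stable
subspaces `Ch p`, an equivariant operator `L` of degree one and an invariant pairing; nothing else is
required. In the intended use, `A` is the sum of the spaces of homologically trivial cycles of the base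
change of `X` to the algebraic closure of `K` modulo rational equivalence, with rational coefficients,
`L` is the intersection with the class of the line bundle, and the pairing is the height pairing. -/
structure Cycles (K : Type) [Field K] [NumberField K] where
  /-- the dimension of `X` -/
  n : ℕ
  /-- the sum of all `Ch^p(X)^0` over the algebraic closure -/
  A : Type
  [grp : AddCommGroup A]
  [mod : Module ℚ A]
  /-- the action of the Galois group -/
  act : Gal(AlgebraicClosure K/K) →* (A →ₗ[ℚ] A)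
  /-- `Ch^p(X)^0` over the algebraic closure -/
  Ch : ℕ → Submodule ℚ A
  /-- the Lefschetz operator -/
  L : A →ₗ[ℚ] A
  /-- the height pairing: over a field of definition `F` of both cycles, divided by `[F : ℚ]` -/
  height : A →ₗ[ℚ] A →ₗ[ℚ] ℝ
  /-- the subspaces `Ch p` are stable -/
  act_mem : ∀ σ p, ∀ x ∈ Ch p, act σ x ∈ Ch p
  /-- the operator has degree one -/
  L_mem : ∀ p, ∀ x ∈ Ch p, L x ∈ Ch (p + 1)
  /-- the operator is equivariant -/
  L_act : ∀ σ x, L (act σ x) = act σ (L x)
  /-- the pairing is invariant -/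
  height_act : ∀ σ x y, height (act σ x) (act σ y) = height x y

attribute [instance] Cycles.grp Cycles.mod

variable {K : Type} [Field K] [NumberField K]

/-- the conjugate of a cycle -/
noncomputable def Cycles.conj (X : Cycles K) (σ : Gal(AlgebraicClosure K/K)) (x : X.A) : X.A := X.act σ x

/-- the height pairing of two cycles -/
noncomputable def Cycles.pair (X : Cycles K) (x y : X.A) : ℝ := X.height x y

/-- intersection with the `k`-th power of the class of `L` -/
noncomputable def Cycles.Lpow (X : Cycles K) (k : ℕ) (x : X.A) : X.A := (X.L ^ k) x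

/-- `Ch^p(X_F)^0` for an embedding `i` of `F` in the algebraic closure: the classes fixed by the
automorphisms which fix `i(F)` -/
def Cycles.Over (X : Cycles K) {F : Type} [Field F] [Algebra K F] (i : F →ₐ[K] AlgebraicClosure K)
    (p : ℕ) : Set X.A :=
  {x | x ∈ X.Ch p ∧ ∀ σ : Gal(AlgebraicClosure K/K), (∀ y, σ (i y) = i y) → X.conj σ x = x}

/-- Q1 for `X_F` -/
def Cycles.Q1 (X : Cycles K) (F : Type) [Field F] [NumberField F] [Algebra K F] : Prop :=
  ∀ (i : F →ₐ[K] AlgebraicClosure K) (p : ℕ), 2 * p ≤ X.n + 1 →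
    Set.BijOn (X.Lpow (X.n + 1 - 2 * p)) (X.Over i p) (X.Over i (X.n + 1 - p))

/-- Q2 for `X_F` -/
def Cycles.Q2 (X : Cycles K) (F : Type) [Field F] [NumberField F] [Algebra K F] : Prop :=
  ∀ (i : F →ₐ[K] AlgebraicClosure K) (p : ℕ), 2 * p ≤ X.n + 1 → ∀ x ∈ X.Over i p, x ≠ 0 →
    X.Lpow (X.n + 2 - 2 * p) x = 0 → 0 < (-1) ^ p * X.pair x (X.Lpow (X.n + 1 - 2 * p) x)

/-- a noncyclic group whose order is a product of two primes -/
def NoncyclicPQ (G : Type) [Group G] : Prop :=
  ¬ IsCyclic G ∧ ∃ p q : ℕ, p.Prime ∧ q.Prime ∧ Nat.card G = p * q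

/-- the property `Q` for the fields fixed by the nontrivial subgroups of `A` -/
def OverFixedFields {F : Type} [Field F] [NumberField F] [Algebra K F]
    (Q : ∀ (F' : Type) [Field F'] [NumberField F'] [Algebra K F'], Prop)
    (A : Subgroup (F ≃ₐ[K] F)) : Prop :=
  ∀ B : Subgroup (F ≃ₐ[K] F), B ≤ A → B ≠ ⊥ → Q (IntermediateField.fixedField B)

/-- (1): from the fields fixed by the nontrivial subgroups of a noncyclic group `A` of automorphisms of
order `p q` -/
def FromFixedFields (Q : ∀ (F' : Type) [Field F'] [NumberField F'] [Algebra K F'], Prop) (F : Type)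
    [Field F] [NumberField F] [Algebra K F] : Prop :=
  ∀ A : Subgroup (F ≃ₐ[K] F), NoncyclicPQ A → OverFixedFields Q A → Q F

/-- (2): from the subfields whose groups of automorphisms have only cyclic subgroups of order `p q` -/
def FromSubfields (Q : ∀ (F' : Type) [Field F'] [NumberField F'] [Algebra K F'], Prop) (F : Type)
    [Field F] [NumberField F] [Algebra K F] : Prop :=
  (∀ (F' : Type) [Field F'] [NumberField F'] [Algebra K F'] [Algebra F' F] [IsScalarTower K F' F],
    (∀ A : Subgroup (F' ≃ₐ[K] F'), ¬ NoncyclicPQ A) → Q F') → Q F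

/-- (3): abelian extensions, from the cyclic ones -/
def FromCyclic (Q : ∀ (F' : Type) [Field F'] [NumberField F'] [Algebra K F'], Prop) (F : Type)
    [Field F] [NumberField F] [Algebra K F] : Prop :=
  IsAbelianGalois K F → (∀ (F' : Type) [Field F'] [NumberField F'] [Algebra K F'] [Algebra F' F]
    [IsScalarTower K F' F], IsGalois K F' → IsCyclic (F' ≃ₐ[K] F') → Q F') → Q F

/-- the three statements for a property of number fields -/
def Ascends (Q : ∀ (F' : Type) [Field F'] [NumberField F'] [Algebra K F'], Prop) (F : Type) [Field F]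
    [NumberField F] [Algebra K F] : Prop :=
  FromFixedFields Q F ∧ FromSubfields Q F ∧ FromCyclic Q F

open Pool.Agent.Q274.HI Pool.Agent.Q5.RG in
theorem ascends {Q : ∀ (F' : Type) [Field F'] [NumberField F'] [Algebra K F'], Prop}
    (hQ : ∀ (F : Type) [Field F] [NumberField F] [Algebra K F] (A : Subgroup (F ≃ₐ[K] F)) (p q : ℕ),
      p.Prime → q.Prime → Nat.card A = p * q → ¬ IsCyclic A →
      (∀ B : Subgroup (F ≃ₐ[K] F), B ≤ A → B ≠ ⊥ → Q (IntermediateField.fixedField B)) → Q F)
    (F : Type) [Field F] [NumberField F] [Algebra K F] : Ascends Q F := by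
  refine ⟨?_, fun h => ?_, fun hab h => ?_⟩
  · rintro A ⟨hn, p, q, hp, hq, hc⟩ h
    exact hQ F A p q hp hq hc hn h
  · refine reduce hQ _ F (Nat.lt_succ_self _) ?_
    intro F' _ _ _ _ _ hF'
    refine h F' ?_
    rintro A ⟨hn, p, q, hp, hq, hc⟩
    exact hn (hF' A p q hp hq hc)
  · refine reduce hQ _ F (Nat.lt_succ_self _) ?_
    intro F' _ _ _ _ _ hF'
    have hab' : IsAbelianGalois K F' := IsAbelianGalois.tower_bot K F' F
    exact h F' inferInstance (cyclic_of_abelian hF')

open Pool.Agent.Q274.HI Pool.Agent.Q5.RG in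
theorem result (K : Type) [Field K] [NumberField K] (X : Cycles K) (F : Type)
    [Field F] [NumberField F] [Algebra K F] :
    Ascends X.Q1 F ∧ Ascends X.Q2 F := by
  let ρ : Gal(AlgebraicClosure K/K) →* (X.A →ₗ[ℚ] X.A) := X.act
  have hLk : ∀ (k : ℕ) (σ : Gal(AlgebraicClosure K/K)) (x : X.A),
      (X.L ^ k) (ρ σ x) = ρ σ ((X.L ^ k) x) := by
    intro k
    induction k with
    | zero => intro σ x; rfl
    | succ k ih =>
      intro σ x
      rw [pow_succ']
      change X.L ((X.L ^ k) (ρ σ x)) = ρ σ (X.L ((X.L ^ k) x))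
      rw [ih]
      exact X.L_act σ _
  have hLm : ∀ (k p : ℕ), ∀ x ∈ X.Ch p, (X.L ^ k) x ∈ X.Ch (p + k) := by
    intro k
    induction k with
    | zero => intro p x hx; exact hx
    | succ k ih =>
      intro p x hx
      rw [pow_succ']
      change X.L ((X.L ^ k) x) ∈ X.Ch (p + k + 1)
      exact X.L_mem _ _ (ih p x hx)
  refine ⟨ascends ?_ F, ascends ?_ F⟩
  · intro F _ _ _ A p r hp hr hc hn h i m hm
    have h1 := bij_field (ρ := ρ) (L := X.L ^ (X.n + 1 - 2 * m)) (C := X.Ch m)
      (C' := X.Ch (X.n + 1 - m)) (hLk _) (fun σ x hx => X.act_mem σ _ x hx)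
      (fun σ x hx => X.act_mem σ _ x hx) (fun x hx => by
        have h2 := hLm (X.n + 1 - 2 * m) m x hx
        rwa [show m + (X.n + 1 - 2 * m) = X.n + 1 - m by omega] at h2) i A hp hr hc hn
      (fun B hB hB0 => h B hB hB0 (i.comp (IntermediateField.fixedField B).val) m hm)
    exact h1
  · intro F _ _ _ A p r hp hr hc hn h i m hm x hx hx0 hxL
    let P : Submodule ℚ X.A := X.Ch m ⊓ LinearMap.ker (X.L ^ (X.n + 2 - 2 * m))
    let q : X.A →ₗ[ℚ] X.A →ₗ[ℚ] ℝ :=
      ((-1 : ℚ) ^ m) • (X.height.compl₂ (X.L ^ (X.n + 1 - 2 * m)))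
    have hqe : ∀ x y, q x y = (-1) ^ m * X.height x ((X.L ^ (X.n + 1 - 2 * m)) y) := by
      intro x y
      change ((-1 : ℚ) ^ m) • X.height x ((X.L ^ (X.n + 1 - 2 * m)) y) = _
      rw [Rat.smul_def]
      push_cast
      rfl
    have h1 := pos_field (ρ := ρ) (q := q) (fun σ x y => by
        rw [hqe, hqe, hLk]
        exact congrArg _ (X.height_act σ _ _)) (P := P)
      (fun σ x hx => ⟨X.act_mem σ _ x hx.1, by
        have h2 : (X.L ^ (X.n + 2 - 2 * m)) x = 0 := hx.2
        change (X.L ^ (X.n + 2 - 2 * m)) (ρ σ x) = 0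
        rw [hLk, h2, map_zero]⟩) i A hp hr hc hn
      (fun B hB hB0 y hy hy' hy0 => by
        rw [hqe]
        exact h B hB hB0 (i.comp (IntermediateField.fixedField B).val) m hm y ⟨hy.1, hy'⟩ hy0 hy.2)
      x ⟨hx.1, hxL⟩ hx.2 hx0
    rwa [hqe] at h1

end Pool.Agent.Results.MP_e2c9e7_nt.AscentFromSubfields
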