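import Pool.Agent.Q226.SC.ZQLef

set_option autoImplicit false

/-!
# The arithmetic Lefschetz isomorphism from divisors to zero-cycles
-/

namespace Pool.Agent.Results.MP_e2c9e7_nt.DivisorsToZeroCycles

open Pool.Agent.Q226.SC

variable {G : Geo} {C : Cycles G} {Q : Arith C}

/-- `L^(n-1) : Ch¹(X)⁰ → Chⁿ(X)⁰` is bijective for every ample line bundle `L` on `X`. -/
def LefschetzIso (D : LefData Q) (X : Q.Sch) : Prop :=
  ∀ L : D.Pol X, Function.Bijective (D.lef X L)

/-- Every homologically trivial zero-cycle on `X`, a multiple of which has Albanese image `0`, is
rationally equivalent to `0` up to torsion. -/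
def KernelTorsion (Q : Arith C) (X : Q.Sch) : Prop :=
  ∀ z : Q.hom X, Q.AlbTorsion X z → Q.Torsion X z

/-- Any two rational points of a geometrically simply connected surface over `ℚ` are rationally
equivalent up to torsion. -/
def PointCondition (Q : Arith C) : Prop := ∀ T : Q.Sch, Q.SCSurface T → Q.PointsEquivalent T

/-- The dimension of the space spanned by the differences of rational points of `T` in
`CH₀(T) ⊗ ℚ` is bounded, uniformly in the geometrically simply connected surfaces `T` over `ℚ`. -/
def RankCondition (Q : Arith C) : Prop := ∃ m : ℕ, ∀ T : Q.Sch, Q.SCSurface T → Q.RankBelow m T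

/-- The case `i = 1` of Q1: `L^(n-1) : Ch¹(X)⁰ → Chⁿ(X)⁰` for smooth projective varieties `X` of
dimension `n ≥ 1` over number fields. For surfaces (`n = 2`) it is the only case.

1. For every `X` and `L` the map is bijective if and only if all zero-cycles of `X` with Albanese
image `0` up to torsion are rationally equivalent to `0` up to torsion; in particular this does not
depend on the ample line bundle `L`.

2. These are equivalent: the map is bijective for all `X` which are generic fibres of regular
projective arithmetic varieties (of any dimension), over all number fields, and all `L`; it is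
bijective for all geometrically simply connected surfaces over `ℚ`; any two rational points of such
a surface are rationally equivalent up to torsion; the dimension of the space spanned by the
differences of rational points of `T` in `CH₀(T) ⊗ ℚ` is bounded, uniformly in these surfaces `T`. -/
theorem result (D : LefData Q) (h : Facts C) (q : Q.Facts) (l : LefFacts D) :
    (∀ (X : Q.Sch) (L : D.Pol X), Function.Bijective (D.lef X L) ↔ KernelTorsion Q X) ∧
    ((∀ X : Q.Sch, 1 ≤ G.dim (Q.geo X) → D.Model X → LefschetzIso D X) ↔ PointCondition Q) ∧
    ((∀ T : Q.Sch, Q.SCSurface T → LefschetzIso D T) ↔ PointCondition Q) ∧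
    (PointCondition Q ↔ RankCondition Q) :=
  ⟨fun X L => lef_bijective_iff l X L, lef_iff h q l, lef_surface_iff h q l, rank_law q⟩

end Pool.Agent.Results.MP_e2c9e7_nt.DivisorsToZeroCycles
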