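import Pool.Agent.Q187.HL.Main

/-!
# Beilinson's conjectures on `Y × C_1 × ... × C_n`

Hard Lefschetz and the Hodge index property of the height pairing for
`X = Y × C_1 × ... × C_n` and `L_Y + a_1 P_1 + ... + a_n P_n` hold if and only if they hold for
`L_Y` on the cycles of every type `S` (those of `h(Y) ⊗ ⨂_{k ∈ S} h^1(C_k)`), with centre
`(dim Y + |S| + 1) / 2`. If `Y` is a point this says: vanishing outside the middle, and
definiteness in the middle.
-/

namespace Pool.Agent.Results.MP_e2c9e7_nt.ProductsWithCurves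

open Pool.Agent.Q187.HL

universe u

theorem result (X : CurveProduct.{u}) (hX : IsCycles X) (hc : Commute X) (hh : IsHeight X)
    (a : Fin X.n → ℚ) (ha : ∀ k, 0 < a k) :
    (Q1 X a ↔ ∀ S, Hard X.V (piece X S) X.LY (X.dimY + S.card + 1)) ∧
    (Q2 X a ↔ ∀ S, Index X.V (piece X S) X.LY (X.dimY + S.card + 1) (heightOn X S)) ∧
    (OverPoint X → CurveCase X →
      (Q1 X a ↔ Vanishing X) ∧ (Q1 X a ∧ Q2 X a ↔ Vanishing X ∧ Definite X)) :=
  ⟨main_hard X hX hc a ha, main_index X hX hc hh a ha,
    fun hp hcc => main_point X hX hc hh a ha hp hcc⟩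

end Pool.Agent.Results.MP_e2c9e7_nt.ProductsWithCurves
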