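import Pool.Agent.Q56.HT.Rat

set_option autoImplicit false

/-!
# Beilinson's Lefschetz and Hodge index conjectures for powers of a variety and for symmetric powers
# of its square

Let `X` be a smooth projective variety over a number field with a polarization, and give the powers
`X^m` the sum `L` of the pull-backs. The permutations of the factors act on the cycles of `X^m`
homologous to zero, they commute with `L` and preserve the height pairing. Let `S_n` be the group
which permutes the `n` factors `X × X` of `X^(2n+r) = (X × X)^n × X^r`; its order `n!` is much smaller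
than the order `(2n+r)!` of the group of all permutations. The Chow groups of the quotient
`Sym^n(X × X) × X^r` with rational coefficients are the `S_n`-invariants.

We prove: the hard Lefschetz property Q1 holds for `X^(2n+r)` if and only if it holds for
`Sym^n(X × X) × X^r`, and the Hodge index property Q2 (positivity of the heights of primitive cycles)
holds for `X^(2n+r)` if and only if it holds for `Sym^n(X × X) × X^r`. The Chow groups are rational
vector spaces of unknown dimension, the height pairing takes real values, and it is not known to be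
non-degenerate.

The proof. Every nonzero rational representation of the symmetric group on `2n` letters has a nonzero
vector fixed by `S_n`. So a real-valued invariant form on a rational representation which is positive
on the nonzero vectors fixed by `S_n` is positive semidefinite (on the real span of an orbit, compare
with a positive definite invariant form), and its radical, a subrepresentation which contains no
nonzero vector fixed by `S_n`, is zero.
-/

namespace Pool.Agent.Results.MP_e2c9e7_nt.SymmetricPowersOfSquares

open Equiv Pool.Agent.Q56.HT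

/-- The cycles homologous to zero on a polarized variety: `N` is the dimension, `V i = Ch^i(X)^0`,
subspaces of a rational vector space `A` (the sum of the `V i`), `L` the Lefschetz operator, and
`height x y` for `x` in `V i` and `y` in `V j`, `i + j = N + 1`, the height pairing. -/
structure Cycles where
  N : ℕ
  A : Type
  [group : AddCommGroup A]
  [module : Module ℚ A]
  V : ℕ → Submodule ℚ A
  L : A →ₗ[ℚ] A
  height : A →ₗ[ℚ] A →ₗ[ℚ] ℝ
  L_mem : ∀ i, ∀ x ∈ V i, L x ∈ V (i + 1)

attribute [instance] Cycles.group Cycles.module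

/-- Q1: the power `L ^ (N + 1 - 2 i)` of the Lefschetz operator maps `Ch^i(X)^0` bijectively onto
`Ch^(N + 1 - i)(X)^0`, for all `i ≤ (N + 1) / 2`. -/
def Cycles.Q1 (C : Cycles) : Prop :=
  ∀ i, 2 * i ≤ C.N + 1 → Set.BijOn (C.L ^ (C.N + 1 - 2 * i)) (C.V i) (C.V (C.N + 1 - i))

/-- Q2: for `i ≤ (N + 1) / 2` and every nonzero `x` in `Ch^i(X)^0` with `L ^ (N + 2 - 2 i) x = 0` the
number `(-1) ^ i (x, L ^ (N + 1 - 2 i) x)` is positive. -/
def Cycles.Q2 (C : Cycles) : Prop :=
  ∀ i, 2 * i ≤ C.N + 1 → ∀ x ∈ C.V i, x ≠ 0 → (C.L ^ (C.N + 2 - 2 * i)) x = 0 →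
    0 < (-1) ^ i * C.height x ((C.L ^ (C.N + 1 - 2 * i)) x)

/-- The cycles homologous to zero on a power with `2 n + r` factors, indexed by
`(Fin n × Bool) ⊕ Fin r`: the permutations of the factors act on the groups `V i`, commute with `L`
and preserve the height pairing. -/
structure PowerCycles (n r : ℕ) extends Cycles where
  act : Representation ℚ (Perm ((Fin n × Bool) ⊕ Fin r)) A
  act_mem : ∀ g i, ∀ x ∈ V i, act g x ∈ V i
  act_L : ∀ g x, L (act g x) = act g (L x)
  act_height : ∀ g x y, height (act g x) (act g y) = height x y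

/-- The permutation of the factors of `X^(2n+r) = (X × X)^n × X^r` given by a permutation `σ` of the
`n` factors `X × X`. -/
def pairPerm {n : ℕ} (r : ℕ) (σ : Perm (Fin n)) : Perm ((Fin n × Bool) ⊕ Fin r) :=
  (σ.prodCongr (Equiv.refl Bool)).sumCongr (Equiv.refl (Fin r))

/-- The vectors fixed by the permutations of the `n` factors `X × X`. -/
def invariants {n r : ℕ} {A : Type} [AddCommGroup A] [Module ℚ A]
    (ρ : Representation ℚ (Perm ((Fin n × Bool) ⊕ Fin r)) A) : Submodule ℚ A where
  carrier := {v | ∀ σ : Perm (Fin n), ρ (pairPerm r σ) v = v}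
  add_mem' := fun hv hw σ => by rw [map_add, hv σ, hw σ]
  zero_mem' := fun σ => map_zero _
  smul_mem' := fun c v hv σ => by rw [map_smul, hv σ]

/-- The cycles homologous to zero on the quotient `Sym^n(X × X) × X^r`: the invariants of the group
`S_n` which permutes the `n` factors `X × X`, with the restricted operator and pairing. -/
noncomputable def PowerCycles.quotient {n r : ℕ} (B : PowerCycles n r) : Cycles where
  N := B.N
  A := invariants B.act
  V := fun i => (B.V i).comap (invariants B.act).subtype
  L := B.L.restrict fun v hv σ => by rw [← B.act_L, hv σ]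
  height := B.height.domRestrict₁₂ _ _
  L_mem := fun i x hx => B.L_mem i _ hx

variable {n r : ℕ} (B : PowerCycles n r)

theorem act_pow (g : Perm ((Fin n × Bool) ⊕ Fin r)) (m : ℕ) (x : B.A) :
    (B.L ^ m) (B.act g x) = B.act g ((B.L ^ m) x) := by
  induction m with
  | zero => rfl
  | succ m ih => rw [pow_succ', Module.End.mul_apply, Module.End.mul_apply, ih, B.act_L]

theorem pow_mem (m i : ℕ) {x : B.A} (hx : x ∈ B.V i) : (B.L ^ m) x ∈ B.V (i + m) := by
  induction m with
  | zero => exact hx
  | succ m ih =>
    rw [pow_succ', Module.End.mul_apply]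
    exact B.L_mem _ _ ih

/-- the inclusion of the invariants -/
def incl (x : B.quotient.A) : B.A := (show invariants B.act from x).1

theorem incl_inj {x y : B.quotient.A} (h : incl B x = incl B y) : x = y := Subtype.ext h

theorem incl_fixed (x : B.quotient.A) (σ : Perm (Fin n)) :
    B.act (pairPerm r σ) (incl B x) = incl B x := (show invariants B.act from x).2 σ

theorem quotient_pow (m : ℕ) (x : B.quotient.A) :
    incl B ((B.quotient.L ^ m) x) = (B.L ^ m) (incl B x) := by
  induction m with
  | zero => rfl
  | succ m ih =>
    rw [pow_succ', pow_succ', Module.End.mul_apply, Module.End.mul_apply, ← ih]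
    rfl

theorem quotient_height (x y : B.quotient.A) :
    B.quotient.height x y = B.height (incl B x) (incl B y) := rfl

theorem bij_iff {i : ℕ} (hi : 2 * i ≤ B.N + 1) :
    Set.BijOn (B.L ^ (B.N + 1 - 2 * i)) (B.V i) (B.V (B.N + 1 - i)) ↔
      Set.BijOn (B.quotient.L ^ (B.N + 1 - 2 * i)) (B.quotient.V i)
        (B.quotient.V (B.N + 1 - i)) := by
  have hmem : ∀ v ∈ B.V i, (B.L ^ (B.N + 1 - 2 * i)) v ∈ B.V (B.N + 1 - i) := by
    intro v hv
    have h := pow_mem B (B.N + 1 - 2 * i) i hv
    rwa [show i + (B.N + 1 - 2 * i) = B.N + 1 - i by omega] at h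
  rw [bijOn_iff B.act (B.V i) (B.V (B.N + 1 - i)) (fun g => B.act_mem g i)
    (fun g => B.act_mem g _) (B.L ^ (B.N + 1 - 2 * i)) (fun g v => act_pow B g _ v) hmem]
  constructor
  · rintro ⟨h1, h2⟩
    refine ⟨fun x hx => ?_, fun x hx y hy hxy => ?_, fun y hy => ?_⟩
    · change incl B _ ∈ B.V _
      rw [quotient_pow]
      exact hmem _ hx
    · have h3 := congrArg (incl B) hxy
      rw [quotient_pow, quotient_pow] at h3
      have h4 : incl B x - incl B y = 0 := h1 _ ((B.V i).sub_mem hx hy)
        (fun σ => by
          rw [map_sub]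
          exact congrArg₂ _ (incl_fixed B x σ) (incl_fixed B y σ))
        (by rw [map_sub]; exact sub_eq_zero.2 h3)
      exact incl_inj B (sub_eq_zero.1 h4)
    · obtain ⟨v, hv, hv2, hv3⟩ := h2 (incl B y) hy (incl_fixed B y)
      exact ⟨⟨v, hv2⟩, hv, incl_inj B ((quotient_pow B _ _).trans hv3)⟩
  · rintro ⟨-, h1, h2⟩
    refine ⟨fun v hv hv2 hv3 => ?_, fun w hw hw2 => ?_⟩
    · let y : B.quotient.A := (⟨v, hv2⟩ : invariants B.act)
      have h4 : (B.quotient.L ^ (B.N + 1 - 2 * i)) y =
          (B.quotient.L ^ (B.N + 1 - 2 * i)) 0 := by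
        rw [map_zero]
        exact incl_inj B ((quotient_pow B _ _).trans hv3)
      have h3 : y = 0 := h1 (x₁ := y) (x₂ := 0) hv (B.quotient.V i).zero_mem h4
      exact congrArg (incl B) h3
    · obtain ⟨x, hx, hx2⟩ := h2 (show (⟨w, hw2⟩ : invariants B.act) ∈ _ from hw)
      exact ⟨incl B x, hx, incl_fixed B x, (quotient_pow B _ _).symm.trans
        (congrArg (incl B) hx2)⟩

/-- **Q1 and Q2 hold for the power `X^(2n+r)` if and only if they hold for `Sym^n(X × X) × X^r`.** -/
theorem result (B : PowerCycles n r) :
    (B.Q1 ↔ B.quotient.Q1) ∧ (B.Q2 ↔ B.quotient.Q2) := by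
  refine ⟨forall₂_congr fun i hi => bij_iff B hi, ?_, ?_⟩
  · intro h i hi x hx hx0 hx2
    have h1 := h i hi (incl B x) hx (fun h0 => hx0 (incl_inj B h0))
      ((quotient_pow B _ _).symm.trans (congrArg (incl B) hx2))
    rw [← quotient_pow, ← quotient_height] at h1
    exact h1
  · intro h i hi x hx hx0 hx2
    have key := pos_of_inv B.act (B.V i ⊓ LinearMap.ker (B.L ^ (B.N + 2 - 2 * i)))
      (fun g v hv => ⟨B.act_mem g i v hv.1, by
        change (B.L ^ _) (B.act g v) = 0
        rw [act_pow, show (B.L ^ _) v = 0 from hv.2, map_zero]⟩)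
      (((-1 : ℚ) ^ i) • B.height.compl₂ (B.L ^ (B.N + 1 - 2 * i)))
      (fun g a _ b _ => by
        rw [LinearMap.smul_apply, LinearMap.smul_apply, LinearMap.smul_apply,
          LinearMap.smul_apply, LinearMap.compl₂_apply, LinearMap.compl₂_apply, act_pow,
          B.act_height])
      (fun v hv hv0 hv2 => by
        let y : B.quotient.A := (⟨v, hv2⟩ : invariants B.act)
        have h1 := h i hi y hv.1 (fun h0 => hv0 (congrArg (incl B) h0))
          (incl_inj B ((quotient_pow B _ _).trans hv.2))
        rw [quotient_height, quotient_pow] at h1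
        rw [LinearMap.smul_apply, LinearMap.smul_apply, LinearMap.compl₂_apply, Rat.smul_def]
        push_cast
        exact h1)
      x ⟨hx, hx2⟩ hx0
    rw [LinearMap.smul_apply, LinearMap.smul_apply, LinearMap.compl₂_apply, Rat.smul_def] at key
    push_cast at key
    exact key

end Pool.Agent.Results.MP_e2c9e7_nt.SymmetricPowersOfSquares
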